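import Mathlib
import Pool.Agent.Lib.MP_0a1b52_lc_RND.Core

/-!
The bound on the advantage of a circuit on the random chain, for assignments in which every
variable is either a variable of some region or constant.
-/

namespace Pool.Agent.CliqueModules

open Finset Pool.Agent.MP0a1b52

set_option linter.unusedSectionVars false

/-- Every variable of the assignment `X x` is a variable of some region, or constant. -/
def IsProj {V R I : Type} (X : (R → Set I) → V → Prop) : Prop :=
  ∀ v, (∃ ρ ι, ∀ x, X x v ↔ ι ∈ x ρ) ∨ (∃ p : Prop, ∀ x, X x v ↔ p)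

theorem IsProj.mono {V R I : Type} {X : (R → Set I) → V → Prop} (hX : IsProj X)
    {x y : R → Set I} (hxy : ∀ ρ, x ρ ⊆ y ρ) (v : V) (h : X x v) : X y v := by
  rcases hX v with ⟨ρ, ι, h1⟩ | ⟨p, h1⟩
  · exact (h1 y).2 (hxy ρ ((h1 x).1 h))
  · exact (h1 y).2 ((h1 x).1 h)

variable {V : Type} {s : ℕ} {F A R : Type} [Field F] [Fintype F] [DecidableEq F]
  [Fintype A] [DecidableEq A] {d : ℕ}
  (φ : F → A)

open Classical in
/-- One step, counting version. -/
theorem one_step_proj [DecidableEq R] {Y : (R → Set (F × A)) → V → Prop} (hY : IsProj Y)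
    (hd : 2 ≤ d) (D : Circuit V s)
    (Bd : ℕ) (hB : ∀ α, (univ.filter fun z : F => φ z = α).card ≤ Bd)
    (h2 : 2 * ((d - 1) * Bd) ≤ Fintype.card F) (hdF : d ≤ Fintype.card F)
    (hneg : 4 * (Fintype.card F ^ d * (4 * d - 1) ^ Fintype.card F) ≤
      (4 * d) ^ Fintype.card F) (hs : s ≤ 2 ^ d)
    (x : R → Set (F × A)) (ρ : R) (hρ : x ρ = ∅) :
    ((univ.filter fun c : Fin d → F =>
        D.Acc (Y (Function.update x ρ (testPos φ c))) ∧
        ¬ D.Acc (Y x)).card * 2 ^ d ≤ s * Fintype.card F ^ d) ∨
    ((univ : Finset (F × A → Fin (4 * d))).card ≤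
      4 * (univ.filter fun ω : F × A → Fin (4 * d) =>
        (∀ c : Fin d → F, ¬ testPos φ c ⊆ testNeg ω) ∧
        D.Changes (Y x) (Y (Function.update x ρ (testNeg ω)))).card) := by
  set X : Set (F × A) → V → Prop := fun z => Y (Function.update x ρ z) with hX
  have hX0 : X ∅ = Y x := by
    rw [hX]
    simp only
    rw [← hρ, Function.update_eq_self]
  obtain ⟨val, hval⟩ := D.exists_eval (Y x)
  have hXty : ∀ v, (∃ ι, ∀ z, X z v ↔ ι ∈ z) ∨ (∃ p : Prop, ∀ z, X z v ↔ p) := by
    intro e
    rcases hY e with ⟨ρ', ι, hc⟩ | ⟨p, hc⟩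
    · by_cases hρρ : ρ' = ρ
      · subst hρρ
        left
        refine ⟨ι, fun z => ?_⟩
        show Y (Function.update x ρ' z) e ↔ _
        rw [hc, Function.update_self]
      · right
        refine ⟨ι ∈ x ρ', fun z => ?_⟩
        show Y (Function.update x ρ z) e ↔ _
        rw [hc, Function.update_of_ne hρρ]
    · exact Or.inr ⟨p, fun z => hc _⟩
  have hXmono : ∀ z, ∀ v, X ∅ v → X z v := by
    intro z e
    refine hY.mono ?_ _
    intro ρ'
    by_cases h : ρ' = ρ
    · subst h
      rw [Function.update_self]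
      exact Set.empty_subset _
    · rw [Function.update_of_ne h, Function.update_of_ne h]
  have hfro : ∀ z, ∃ v, D.IsFrozen val (X z) v := fun z => D.exists_frozen val (X z)
  choose v hv using hfro
  have hv0 : v ∅ = val := by
    have h1 := hval.isFrozen
    rw [← hX0] at h1
    exact (hv ∅).unique h1
  have hgood := frozen_good D val d hd X hXty v hv
  set 𝓖 : Set (Set (F × A) → Prop) :=
    {g | ∃ w, D.IsTarget w ∧ g = fun z => Sum.elim (X z) (v z) w} with h𝓖
  have hgood' : Good d d 𝓖 s := hgood.subset (by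
    rintro g ⟨w, -, rfl⟩
    exact ⟨w, rfl⟩)
  rcases step_count φ Bd hB hd h2 hdF hneg 𝓖 s hs hgood' with
    ⟨bad, hbad, hc⟩ | ⟨g, ⟨w, hw, rfl⟩, hg0, hcard⟩
  · left
    refine le_trans (Nat.mul_le_mul_right _ (card_le_card ?_)) hbad
    intro c hcmem
    obtain ⟨-, ⟨val', hval', hout'⟩, hnacc⟩ := mem_filter.1 hcmem
    by_contra hcb
    have hkey : ∀ w, D.IsTarget w →
        (Sum.elim (X ∅) (v ∅) w ↔ Sum.elim (X (testPos φ c)) (v (testPos φ c)) w) := by
      intro w hw
      constructor
      · exact (hv ∅).mono (hv (testPos φ c)) (hXmono _) w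
      · exact hc c hcb _ ⟨w, hw, rfl⟩
    have heval0 : D.IsEval (X ∅) (v ∅) := by rw [hX0, hv0]; exact hval
    have heval : D.IsEval (X (testPos φ c)) (v (testPos φ c)) := by
      refine Circuit.IsFrozen.isEval (x := X ∅) (val := v ∅) heval0 ?_ ?_
      · rw [hv0]; exact hv _
      · intro i J f hi w hw
        exact hkey w (Or.inr ⟨i, J, f, hi, hw⟩)
    have hvv : v (testPos φ c) = val' := heval.unique hval'
    have h3 : v ∅ D.out := (hkey (Sum.inr D.out) (Or.inl rfl)).2 (by
      show v (testPos φ c) D.out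
      rw [hvv]
      exact hout')
    rw [hv0] at h3
    exact hnacc ⟨val, hval, h3⟩
  · right
    refine hcard.trans (Nat.mul_le_mul_left _ (card_le_card ?_))
    intro ω hωmem
    obtain ⟨-, hω, hgω⟩ := mem_filter.1 hωmem
    refine mem_filter.2 ⟨mem_univ _, hω, ?_⟩
    obtain ⟨val', hval'⟩ := D.exists_eval (X (testNeg ω))
    by_contra hcon
    have hcon' : ∀ w, D.IsTarget w →
        (Sum.elim (Y x) val w ↔ Sum.elim (X (testNeg ω)) val' w) := by
      intro w hw
      by_contra hne
      exact hcon ⟨val, val', w, hval, hval', hw, hne⟩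
    have hfr : D.IsFrozen val (X (testNeg ω)) val' := by
      intro i
      have hi := hval' i
      cases hgi : D.gate i with
      | and J => rw [hgi] at hi; exact hi
      | or J => rw [hgi] at hi; exact hi
      | special J f =>
        rw [hgi] at hi
        rw [hi]
        have h5 := hval i
        rw [hgi] at h5
        show _ ↔ val i
        rw [h5]
        exact (Gate.value_congr (g := Gate.special J f)
          (fun w hw => hcon' w (Or.inr ⟨i, J, f, hgi, hw⟩))).symm
    have hvv : v (testNeg ω) = val' := (hv _).unique hfr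
    simp only at hg0 hgω
    rw [hX0, hv0] at hg0
    rw [hvv] at hgω
    exact hg0 ((hcon' w hw).2 hgω)

section core

variable [Fintype V] {M : ℕ}

open Classical in
/-- The bound on the advantage of a circuit on the random chain. -/
theorem core_proj {Y : (Fin M → Set (F × A)) → V → Prop} (hY : IsProj Y) (hd : 2 ≤ d)
    (D : Circuit V s) (T : Finset V)
    (hT : ∀ v, v ∉ T → ∀ x y, Y x v → Y y v)
    (Bd : ℕ) (hB : ∀ α, (univ.filter fun z : F => φ z = α).card ≤ Bd)
    (h2 : 2 * ((d - 1) * Bd) ≤ Fintype.card F) (hdF : d ≤ Fintype.card F)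
    (hneg : 4 * (Fintype.card F ^ d * (4 * d - 1) ^ Fintype.card F) ≤
      (4 * d) ^ Fintype.card F) (hs : s ≤ 2 ^ d) :
    (univ.filter fun i : (Fin M → Om φ d) × Fin M × (Fin d → F) =>
        D.Acc (Y
          (Function.update (stt φ i.1 i.2.1) i.2.1 (testPos φ i.2.2)))).card * 2 ^ d ≤
    (univ.filter fun i : (Fin M → Om φ d) × Fin M × (Fin d → F) =>
        D.Acc (Y (stt φ i.1 i.2.1))).card * 2 ^ d +
    Fintype.card (Fin M → Om φ d) * Fintype.card F ^ d * (8 * D.weight T * 2 ^ d + M * s) := by
  set q := Fintype.card F with hq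
  -- the events
  let Ev : (Fin M → Om φ d) → ℕ → Prop := fun ω t =>
    D.Changes (Y (stt φ ω t)) (Y (stt φ ω (t + 1)))
  obtain ⟨S, hSdef⟩ : ∃ S : Fin M → (Fin M → Om φ d) → Prop, ∀ t ω, S t ω ↔
    Fintype.card (Om φ d) ≤ 4 * (univ.filter fun ω' : Om φ d =>
      Ev (Function.update ω t ω') t.val).card := ⟨_, fun _ _ => Iff.rfl⟩
  have hS : ∀ t : Fin M, (univ.filter (S t)).card ≤ 4 * (univ.filter fun ω => Ev ω t.val).card :=
    fun t => resample t (S t) (fun ω => Ev ω t.val) (fun ω h => (hSdef t ω).1 h)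
  -- the number of events on a chain
  have hEv : ∀ ω, ((range M).filter fun t => Ev ω t).card ≤ 2 * D.weight T := by
    intro ω
    choose val hval using fun t => D.exists_eval (Y (stt φ ω t))
    refine le_trans (card_le_card ?_) (chain_count D T M (fun t => Y (stt φ ω t)) val
      hval ?_ ?_).le
    · intro t ht
      obtain ⟨htM, v, v', w, hv, hv', hw, hne⟩ := mem_filter.1 ht
      refine mem_filter.2 ⟨htM, w, hw, ?_⟩
      rw [(hval t).unique hv, (hval (t + 1)).unique hv']
      exact hne
    · intro t v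
      exact hY.mono (stt_mono φ ω t) _
    · intro t v hv
      exact ⟨hT v hv _ _, hT v hv _ _⟩
  have hEv' : ∑ t : Fin M, (univ.filter fun ω : Fin M → Om φ d => Ev ω t.val).card ≤
      Fintype.card (Fin M → Om φ d) * (2 * D.weight T) := by
    have h1 : ∑ t : Fin M, (univ.filter fun ω : Fin M → Om φ d => Ev ω t.val).card =
        ∑ ω : Fin M → Om φ d, (univ.filter fun t : Fin M => Ev ω t.val).card := by
      simp only [card_filter]
      rw [sum_comm]
    have h2 : ∀ ω : Fin M → Om φ d, (univ.filter fun t : Fin M => Ev ω t.val).card ≤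
        2 * D.weight T := by
      intro ω
      refine le_trans ?_ (hEv ω)
      refine card_le_card_of_injOn (fun t : Fin M => t.val) ?_ ?_
      · intro t ht
        rw [mem_coe] at ht ⊢
        exact mem_filter.2 ⟨mem_range.2 t.isLt, (mem_filter.1 ht).2⟩
      · intro t _ t' _ h
        exact Fin.ext h
    rw [h1]
    refine (sum_le_sum fun ω _ => h2 ω).trans (le_of_eq ?_)
    rw [sum_const, card_univ, smul_eq_mul]
  -- one step
  have hstep : ∀ (ω : Fin M → Om φ d) (t : Fin M),
      (univ.filter fun c : Fin d → F =>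
        D.Acc (Y (Function.update (stt φ ω t) t (testPos φ c)))).card * 2 ^ d ≤
      (univ.filter fun c : Fin d → F => D.Acc (Y (stt φ ω t))).card * 2 ^ d +
      (s * q ^ d + if S t ω then q ^ d * 2 ^ d else 0) := by
    intro ω t
    have h1 : (univ.filter fun c : Fin d → F =>
        D.Acc (Y (Function.update (stt φ ω t) t (testPos φ c)))).card ≤
        (univ.filter fun c : Fin d → F => D.Acc (Y (stt φ ω t))).card +
        (univ.filter fun c : Fin d → F =>
          D.Acc (Y (Function.update (stt φ ω t) t (testPos φ c))) ∧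
          ¬ D.Acc (Y (stt φ ω t))).card := by
      refine (card_le_card ?_).trans (card_union_le _ _)
      intro c hc
      have hc' := (mem_filter.1 hc).2
      by_cases h : D.Acc (Y (stt φ ω t))
      · exact mem_union_left _ (mem_filter.2 ⟨mem_univ _, h⟩)
      · exact mem_union_right _ (mem_filter.2 ⟨mem_univ _, hc', h⟩)
    have h3 : (univ.filter fun c : Fin d → F =>
          D.Acc (Y (Function.update (stt φ ω t) t (testPos φ c))) ∧
          ¬ D.Acc (Y (stt φ ω t))).card * 2 ^ d ≤
        s * q ^ d + if S t ω then q ^ d * 2 ^ d else 0 := by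
      rcases one_step_proj φ hY hd D Bd hB h2 hdF hneg hs (stt φ ω t) t
        (stt_self φ ω t) with h | h
      · exact h.trans (Nat.le_add_right _ _)
      · have hSt : S t ω := by
          rw [hSdef]
          show Fintype.card (Om φ d) ≤ 4 * (univ.filter fun ω' : Om φ d =>
            Ev (Function.update ω t ω') t.val).card
          have h4 : Fintype.card (Om φ d) ≤ (univ : Finset (F × A → Fin (4 * d))).card := by
            rw [card_univ]
            exact Fintype.card_subtype_le _
          refine h4.trans (h.trans (Nat.mul_le_mul_left _ ?_))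
          rw [← card_map (Function.Embedding.subtype _)]
          refine card_le_card ?_
          intro ω' hω'
          obtain ⟨-, hω1, hω2⟩ := mem_filter.1 hω'
          refine mem_map.2 ⟨⟨ω', hω1⟩, mem_filter.2 ⟨mem_univ _, ?_⟩, rfl⟩
          show D.Changes (Y (stt φ (Function.update ω t ⟨ω', hω1⟩) t.val))
            (Y (stt φ (Function.update ω t ⟨ω', hω1⟩) (t.val + 1)))
          rw [stt_succ, stt_update, Function.update_self]
          exact hω2
        rw [if_pos hSt]
        have h5 : (univ.filter fun c : Fin d → F =>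
          D.Acc (Y (Function.update (stt φ ω t) t (testPos φ c))) ∧
          ¬ D.Acc (Y (stt φ ω t))).card ≤ q ^ d := by
          refine (card_filter_le _ _).trans ?_
          rw [card_univ, Fintype.card_fun, Fintype.card_fin]
        exact (Nat.mul_le_mul_right _ h5).trans (Nat.le_add_left _ _)
    calc _ ≤ _ := Nat.mul_le_mul_right _ h1
      _ = _ := add_mul _ _ _
      _ ≤ _ := Nat.add_le_add_left h3 _
  -- sum over everything
  have hsum : ∀ Q : (Fin M → Om φ d) × Fin M × (Fin d → F) → Prop,
      (univ.filter Q).card = ∑ ω : Fin M → Om φ d, ∑ t : Fin M,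
        (univ.filter fun c : Fin d → F => Q (ω, t, c)).card := by
    intro Q
    simp only [card_filter]
    rw [Fintype.sum_prod_type]
    refine sum_congr rfl fun ω _ => ?_
    rw [Fintype.sum_prod_type]
  rw [hsum, hsum, sum_mul, sum_mul]
  have h1 : ∑ ω : Fin M → Om φ d, (∑ t : Fin M, (univ.filter fun c : Fin d → F =>
        D.Acc (Y (Function.update (stt φ ω t) t (testPos φ c)))).card) * 2 ^ d ≤
      ∑ ω : Fin M → Om φ d, ((∑ t : Fin M, (univ.filter fun c : Fin d → F =>
        D.Acc (Y (stt φ ω t))).card) * 2 ^ d +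
        ∑ t : Fin M, (s * q ^ d + if S t ω then q ^ d * 2 ^ d else 0)) := by
    refine sum_le_sum fun ω _ => ?_
    rw [sum_mul, sum_mul, ← sum_add_distrib]
    exact sum_le_sum fun t _ => hstep ω t
  refine h1.trans ?_
  rw [sum_add_distrib]
  refine Nat.add_le_add_left ?_ _
  have h3 : ∑ ω : Fin M → Om φ d, ∑ t : Fin M, (s * q ^ d + if S t ω then q ^ d * 2 ^ d else 0) =
      Fintype.card (Fin M → Om φ d) * (M * (s * q ^ d)) +
      (∑ t : Fin M, (univ.filter (S t)).card) * (q ^ d * 2 ^ d) := by
    simp only [sum_add_distrib, sum_const, card_univ, smul_eq_mul, Fintype.card_fin]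
    congr 1
    rw [sum_comm, sum_mul]
    refine sum_congr rfl fun t _ => ?_
    rw [card_filter, sum_mul]
    refine sum_congr rfl fun ω _ => ?_
    split_ifs
    · rw [one_mul]
    · rw [zero_mul]
  rw [h3]
  have h4 : ∑ t : Fin M, (univ.filter (S t)).card ≤
      4 * (Fintype.card (Fin M → Om φ d) * (2 * D.weight T)) := by
    refine (sum_le_sum fun t _ => hS t).trans ?_
    rw [← mul_sum]
    exact Nat.mul_le_mul_left _ hEv'
  calc Fintype.card (Fin M → Om φ d) * (M * (s * q ^ d)) +
      (∑ t : Fin M, (univ.filter (S t)).card) * (q ^ d * 2 ^ d)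
      ≤ Fintype.card (Fin M → Om φ d) * (M * (s * q ^ d)) +
      (4 * (Fintype.card (Fin M → Om φ d) * (2 * D.weight T))) * (q ^ d * 2 ^ d) :=
        Nat.add_le_add_left (Nat.mul_le_mul_right _ h4) _
    _ = _ := by ring

end core

end Pool.Agent.CliqueModules
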