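import Mathlib
import Pool.Agent.Lib.MP_0a1b52_lc_RND.Main
import Pool.Agent.Lib.MP_0a1b52_lc_BAND.Core

/-!
Families of graphs which agree outside a given set of variables, and which no small circuit can
distinguish, even after a projection of the variables.
-/

namespace Pool.Agent.CliqueModules

open Finset Pool.Agent.MP0a1b52

/-- `G` contains `G0`, and all edges of `G` which are not in `T` belong to `G0`. -/
def Between {n : ℕ} (T : Finset (EdgeVar n)) (G0 G : SimpleGraph (Fin n)) : Prop :=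
  (∀ e : EdgeVar n, G0.Adj e.1.1 e.1.2 → G.Adj e.1.1 e.1.2) ∧
  ∀ e : EdgeVar n, e ∉ T → G.Adj e.1.1 e.1.2 → G0.Adj e.1.1 e.1.2

/-- The assignment given by the graph `G` and the projection `r`. -/
def lift {V : Type} {n : ℕ} (r : V → EdgeVar n ⊕ Prop) (G : SimpleGraph (Fin n)) : V → Prop :=
  fun v => Sum.elim (fun e => G.Adj e.1.1 e.1.2) id (r v)

open Classical in
/-- The fraction of accepted assignments. -/
noncomputable def Circuit.accP {V : Type} {s N : ℕ} (D : Circuit V s) (X : Fin N → V → Prop) : ℝ :=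
  ((Finset.univ.filter fun i => D.Acc (X i)).card : ℝ) / N

theorem Circuit.accP_nonneg {V : Type} {s N : ℕ} (D : Circuit V s) (X : Fin N → V → Prop) :
    0 ≤ D.accP X := by
  unfold Circuit.accP
  positivity

theorem Circuit.accP_le_one {V : Type} {s N : ℕ} (D : Circuit V s) (X : Fin N → V → Prop) :
    D.accP X ≤ 1 := by
  classical
  unfold Circuit.accP
  apply div_le_one_of_le₀ _ (Nat.cast_nonneg N)
  have := card_filter_le (univ : Finset (Fin N)) (fun i => D.Acc (X i))
  rw [card_univ, Fintype.card_fin] at this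
  exact_mod_cast this

section families

variable {n : ℕ} {F A W J β : Type} [Field F] [Fintype F] [DecidableEq F]
  [Fintype A] [DecidableEq A] {d p M : ℕ}
  (φ : F → A) (σ : W → J) (π : F × A → W) (η : Fin M → GV F A W d p → Fin n) {b : Fin M → β}

theorem isProj_lift {V : Type} (hε : IsPack η b) (r : V → EdgeVar n ⊕ Prop) :
    IsProj fun x : Fin M → Set (F × A) => lift r (UG φ σ π η x) := by
  intro v
  show (∃ ρ ι, ∀ x : Fin M → Set (F × A), Sum.elim
      (fun e : EdgeVar n => (UG φ σ π η x).Adj e.1.1 e.1.2) id (r v) ↔ ι ∈ x ρ) ∨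
    (∃ p : Prop, ∀ x : Fin M → Set (F × A), Sum.elim
      (fun e : EdgeVar n => (UG φ σ π η x).Adj e.1.1 e.1.2) id (r v) ↔ p)
  rcases r v with e | p'
  · by_cases hc : ∃ ρ ι, Carries π η e ρ ι
    · obtain ⟨ρ, ι, hc⟩ := hc
      left
      exact ⟨ρ, ι, fun x => UG_adj_carries φ σ π η hε hc x⟩
    · right
      push Not at hc
      exact ⟨(UG φ σ π η fun _ => ∅).Adj e.1.1 e.1.2,
        fun x => ⟨UG_adj_indep φ σ π η hc _ _, UG_adj_indep φ σ π η hc _ _⟩⟩
  · right
    exact ⟨p', fun x => Iff.rfl⟩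

theorem between_UG (T : Finset (EdgeVar n))
    (hT : ∀ e ρ ι, Carries π η e ρ ι → e ∈ T) (x : Fin M → Set (F × A)) :
    Between T (UG φ σ π η fun _ => ∅) (UG φ σ π η x) := by
  refine ⟨fun e => UG_mono φ σ π η (fun ρ => Set.empty_subset _) _ _, fun e he => ?_⟩
  exact UG_adj_indep φ σ π η (fun ρ ι h => he (hT e ρ ι h)) _ _

/-- Two families of graphs, agreeing outside `T`, on which every small circuit has a small
advantage, even after a projection. -/
theorem families_proj (hM : 1 ≤ M) (hε : IsPack η b) (hd : 2 ≤ d) [Nonempty J] [Fintype J]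
    [DecidableEq J] (hJ : (∀ j j' : J, j = j') ∨ Function.Injective b)
    (hπ : ∀ h : F → A, ∃ w : J → W, (∀ j, σ (w j) = j) ∧ ∀ i, w (σ (π (i, h i))) = π (i, h i))
    (hcard : Fintype.card (GS F J d p) = Nat.sqrt n + 1) (T : Finset (EdgeVar n))
    (hT : ∀ e ρ ι, Carries π η e ρ ι → e ∈ T)
    (Bd : ℕ) (hB : ∀ α, (univ.filter fun z : F => φ z = α).card ≤ Bd)
    (h2 : 2 * ((d - 1) * Bd) ≤ Fintype.card F) (hdF : d ≤ Fintype.card F)
    (hneg : 4 * (Fintype.card F ^ d * (4 * d - 1) ^ Fintype.card F) ≤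
      (4 * d) ^ Fintype.card F) :
    ∃ (G0 : SimpleGraph (Fin n)) (N : ℕ) (P Q : Fin N → SimpleGraph (Fin n)), 0 < N ∧
      (∀ i, HasClique (P i)) ∧ (∀ i, ¬ HasClique (Q i)) ∧
      (∀ i, Between T G0 (P i)) ∧ (∀ i, Between T G0 (Q i)) ∧
      ∀ (V : Type) [Fintype V] (s : ℕ) (D : Circuit V s) (r : V → EdgeVar n ⊕ Prop)
        (T' : Finset V), (∀ v, v ∉ T' → ∀ e ∈ T, r v ≠ Sum.inl e) → s ≤ 2 ^ d →
      (D.accP (fun i => lift r (P i)) - D.accP fun i => lift r (Q i)) * (M * 2 ^ d) ≤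
        8 * D.weight T' * 2 ^ d + M * s := by
  classical
  set I := (Fin M → Om φ d) × Fin M × (Fin d → F) with hI
  set G1 : I → SimpleGraph (Fin n) := fun i =>
    UG φ σ π η (Function.update (stt φ i.1 i.2.1) i.2.1 (testPos φ i.2.2)) with hG1
  set G2 : I → SimpleGraph (Fin n) := fun i => UG φ σ π η (stt φ i.1 i.2.1) with hG2
  have hΩ : Nonempty (Om φ d) := by
    have : NeZero (4 * d) := ⟨by omega⟩
    refine ⟨⟨fun _ => 0, ?_⟩⟩
    intro c h
    have h1 : ((0 : F), φ (ev c 0)) ∈ testPos φ c := rfl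
    have h3 := h h1
    rw [mem_testNeg] at h3
    exact h3 rfl
  have hMne : Nonempty (Fin M) := ⟨⟨0, by omega⟩⟩
  have hInon : Nonempty I := inferInstance
  have hIpos : 0 < Fintype.card I := Fintype.card_pos
  let e : Fin (Fintype.card I) ≃ I := (Fintype.equivFin I).symm
  refine ⟨UG φ σ π η fun _ => ∅, Fintype.card I, fun k => G1 (e k), fun k => G2 (e k), hIpos,
    ?_, ?_, fun k => between_UG φ σ π η T hT _, fun k => between_UG φ σ π η T hT _, ?_⟩
  · intro k
    rw [hasClique_iff, ← hcard]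
    exact (UG_clique φ σ π η hε (by omega) hJ hπ _).2
      ⟨(e k).2.1, (e k).2.2, by rw [Function.update_self]⟩
  · intro k
    rw [hasClique_iff, ← hcard]
    intro h
    obtain ⟨ρ, c, hc⟩ := (UG_clique φ σ π η hε (by omega) hJ hπ _).1 h
    exact stt_no φ _ _ _ _ hc
  · intro V _ s D r T' hT' hs
    have hYT : ∀ v, v ∉ T' → ∀ x y : Fin M → Set (F × A),
        lift r (UG φ σ π η x) v → lift r (UG φ σ π η y) v := by
      intro v hv x y
      unfold lift
      rcases hrv : r v with e' | p'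
      · exact UG_adj_indep φ σ π η (fun ρ ι h => hT' v hv e' (hT e' ρ ι h) hrv) _ _
      · exact id
    have hcore := core_proj φ (isProj_lift φ σ π η hε r) hd D T' hYT Bd hB h2 hdF hneg hs
    have hcnt : ∀ G : I → SimpleGraph (Fin n),
        (univ.filter fun k : Fin (Fintype.card I) => D.Acc (lift r (G (e k)))).card =
        (univ.filter fun i : I => D.Acc (lift r (G i))).card := by
      intro G
      refine card_bij (fun k _ => e k) ?_ ?_ ?_
      · intro k hk
        exact mem_filter.2 ⟨mem_univ _, (mem_filter.1 hk).2⟩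
      · intro k _ k' _ h
        exact e.injective h
      · intro i hi
        refine ⟨e.symm i, mem_filter.2 ⟨mem_univ _, ?_⟩, e.apply_symm_apply i⟩
        rw [e.apply_symm_apply]
        exact (mem_filter.1 hi).2
    have h1 : D.accP (fun k => lift r (G1 (e k))) =
        ((univ.filter fun i : I => D.Acc (lift r (G1 i))).card : ℝ) / (Fintype.card I : ℕ) := by
      exact congrArg (fun z : ℕ => (z : ℝ) / (Fintype.card I : ℕ)) (hcnt G1)
    have h2' : D.accP (fun k => lift r (G2 (e k))) =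
        ((univ.filter fun i : I => D.Acc (lift r (G2 i))).card : ℝ) / (Fintype.card I : ℕ) := by
      exact congrArg (fun z : ℕ => (z : ℝ) / (Fintype.card I : ℕ)) (hcnt G2)
    set a := (univ.filter fun i : I => D.Acc (lift r (G1 i))).card with ha
    set c := (univ.filter fun i : I => D.Acc (lift r (G2 i))).card with hc
    have hcore' : a * 2 ^ d ≤ c * 2 ^ d +
        Fintype.card (Fin M → Om φ d) * Fintype.card F ^ d *
          (8 * D.weight T' * 2 ^ d + M * s) := hcore
    have hIc : Fintype.card I = Fintype.card (Fin M → Om φ d) * (M * Fintype.card F ^ d) := by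
      show Fintype.card ((Fin M → Om φ d) × Fin M × (Fin d → F)) = _
      rw [Fintype.card_prod, Fintype.card_prod, Fintype.card_fin,
        Fintype.card_fun (α := Fin d), Fintype.card_fin]
    rw [h1, h2']
    have hIR : (0 : ℝ) < (Fintype.card I : ℕ) := by exact_mod_cast hIpos
    have hcoreR : (a : ℝ) * 2 ^ d ≤ c * 2 ^ d + (Fintype.card (Fin M → Om φ d) : ℕ) *
        (Fintype.card F : ℕ) ^ d * (8 * D.weight T' * 2 ^ d + M * s) := by
      exact_mod_cast hcore'
    have hIcR : ((Fintype.card I : ℕ) : ℝ) =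
        (Fintype.card (Fin M → Om φ d) : ℕ) * (M * (Fintype.card F : ℕ) ^ d) := by
      exact_mod_cast hIc
    rw [← sub_div, div_mul_eq_mul_div, div_le_iff₀ hIR]
    calc ((a : ℝ) - c) * (M * 2 ^ d) = M * (a * 2 ^ d - c * 2 ^ d) := by ring
      _ ≤ M * ((Fintype.card (Fin M → Om φ d) : ℕ) *
        (Fintype.card F : ℕ) ^ d * (8 * D.weight T' * 2 ^ d + M * s)) := by
          apply mul_le_mul_of_nonneg_left _ (Nat.cast_nonneg M)
          linarith
      _ = (8 * D.weight T' * 2 ^ d + M * s) * (Fintype.card I : ℕ) := by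
          rw [hIcR]; ring

end families

/-- the trivial families: a clique, and the same without one edge in `T` -/
theorem trivial_between (n : ℕ) (hn : 2 ≤ n) (T : Finset (EdgeVar n)) (hT : 1 ≤ T.card) :
    ∃ (G0 : SimpleGraph (Fin n)) (N : ℕ) (P Q : Fin N → SimpleGraph (Fin n)),
    0 < N ∧ (∀ i, HasClique (P i)) ∧ (∀ i, ¬ HasClique (Q i)) ∧
      (∀ i, Between T G0 (P i)) ∧ (∀ i, Between T G0 (Q i)) := by
  classical
  obtain ⟨e, he⟩ := card_pos.1 hT
  have hsq : Nat.sqrt n + 1 ≤ n := Nat.sqrt_lt_self (by omega)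
  have hs1 : 1 ≤ Nat.sqrt n := Nat.le_sqrt.2 (by omega)
  have hne : e.1.1 ≠ e.1.2 := ne_of_lt e.2
  have hpair : ({e.1.1, e.1.2} : Finset (Fin n)).card = 2 := card_pair hne
  obtain ⟨K, hK1, -, hK2⟩ := exists_subsuperset_card_eq
    (subset_univ ({e.1.1, e.1.2} : Finset (Fin n)))
    (show ({e.1.1, e.1.2} : Finset (Fin n)).card ≤ Nat.sqrt n + 1 by omega)
    (show Nat.sqrt n + 1 ≤ (univ : Finset (Fin n)).card by
      rw [card_univ, Fintype.card_fin]; exact hsq)
  have hKe1 : e.1.1 ∈ K := hK1 (by simp)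
  have hKe2 : e.1.2 ∈ K := hK1 (by simp)
  let GP : SimpleGraph (Fin n) :=
    { Adj := fun u v => u ≠ v ∧ u ∈ K ∧ v ∈ K
      symm := ⟨fun u v h => ⟨h.1.symm, h.2.2, h.2.1⟩⟩
      loopless := ⟨fun u h => h.1 rfl⟩ }
  let GQ : SimpleGraph (Fin n) :=
    { Adj := fun u v => u ≠ v ∧ u ∈ K ∧ v ∈ K ∧ ¬ (u = e.1.1 ∧ v = e.1.2) ∧
        ¬ (v = e.1.1 ∧ u = e.1.2)
      symm := ⟨fun u v h => ⟨h.1.symm, h.2.2.1, h.2.1, h.2.2.2.2, h.2.2.2.1⟩⟩
      loopless := ⟨fun u h => h.1 rfl⟩ }
  refine ⟨GQ, 1, fun _ => GP, fun _ => GQ, by norm_num, fun _ => ?_, fun _ => ?_, fun _ => ?_,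
    fun _ => ⟨fun _ h => h, fun _ _ h => h⟩⟩
  · rw [hasClique_iff]
    refine ⟨K, ?_, hK2.ge⟩
    intro x hx y hy hxy
    exact ⟨hxy, hx, hy⟩
  · rw [hasClique_iff]
    rintro ⟨K', hK', hc⟩
    have hsub : K' ⊆ K := by
      intro x hx
      obtain ⟨y, hy, hyx⟩ := exists_mem_ne (by omega : 1 < K'.card) x
      exact (hK' hx hy hyx.symm).2.1
    have hKK : K' = K := eq_of_subset_of_card_le hsub (by omega)
    subst hKK
    exact (hK' hKe1 hKe2 hne).2.2.2.1 ⟨rfl, rfl⟩
  · refine ⟨fun e' h => ⟨h.1, h.2.1, h.2.2.1⟩, fun e' he' h => ?_⟩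
    refine ⟨h.1, h.2.1, h.2.2, ?_, ?_⟩
    · rintro ⟨h1, h2⟩
      apply he'
      have : e' = e := Subtype.ext (Prod.ext h1 h2)
      rw [this]
      exact he
    · rintro ⟨h1, h2⟩
      have h3 := e'.2
      have h4 := e.2
      rw [h1, h2] at h3
      exact lt_asymm h3 h4

theorem main3 : ∃ C : ℕ, ∀ n0 n S : ℕ, n0 ≤ n → C * (Nat.log 2 (n * S) + 1) ^ 8 ≤ n0 →
    ∀ T : Finset (EdgeVar n0), 1 ≤ T.card →
    ∃ (G0 : SimpleGraph (Fin n0)) (N : ℕ) (P Q : Fin N → SimpleGraph (Fin n0)), 0 < N ∧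
      (∀ i, HasClique (P i)) ∧ (∀ i, ¬ HasClique (Q i)) ∧
      (∀ i, Between T G0 (P i)) ∧ (∀ i, Between T G0 (Q i)) ∧
      ∀ (V : Type) [Fintype V] (s : ℕ) (D : Circuit V s) (r : V → EdgeVar n0 ⊕ Prop)
        (T' : Finset V), (∀ v, v ∉ T' → ∀ e ∈ T, r v ≠ Sum.inl e) → s ≤ S →
      (D.accP (fun i => lift r (P i)) - D.accP fun i => lift r (Q i)) * T.card ≤
        C * D.weight T' * (Nat.log 2 (n * S) + 1) ^ 8 := by
  classical
  obtain ⟨C, hC81, hC⟩ := params2
  refine ⟨17 * C, ?_⟩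
  intro n nn S hnn hn T hTc
  set L := Nat.log 2 (nn * S) + 1 with hL
  have hL1 : 1 ≤ L := by omega
  have hL8 : 1 ≤ L ^ 8 := Nat.pow_pos (by omega)
  have hCL : C * L ^ 8 ≤ n := by
    calc C * L ^ 8 ≤ 17 * (C * L ^ 8) := Nat.le_mul_of_pos_left _ (by norm_num)
      _ = 17 * C * L ^ 8 := by ring
      _ ≤ n := hn
  have hn81 : 81 ≤ n := by
    calc 81 ≤ C := hC81
      _ ≤ C * L ^ 8 := Nat.le_mul_of_pos_right _ hL8
      _ ≤ n := hCL
  obtain ⟨d, q, Bd, a, hqp, hd, hdq, hBd, hqa, h2, hneg, hbig, hs1, hs2, hs3⟩ := hC L hL1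
  have hCL1 : 1 ≤ C * L ^ 8 := Nat.mul_pos (by omega) hL8
  -- trivial cases
  rcases Nat.eq_zero_or_pos S with hS0 | hS0
  · obtain ⟨G0, N, P, Q, hN, hP, hQ, hP', hQ'⟩ := trivial_between n (by omega) T hTc
    refine ⟨G0, N, P, Q, hN, hP, hQ, hP', hQ', ?_⟩
    intro V _ s D r T' hT' hs
    have := D.out.isLt
    omega
  set K := T.card / (C * L ^ 8) with hK
  rcases Nat.eq_zero_or_pos K with hK0 | hK1
  · obtain ⟨G0, N, P, Q, hN, hP, hQ, hP', hQ'⟩ := trivial_between n (by omega) T hTc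
    refine ⟨G0, N, P, Q, hN, hP, hQ, hP', hQ', ?_⟩
    intro V _ s D r T' hT' hs
    have h1 : T.card < C * L ^ 8 := by
      rcases Nat.div_eq_zero_iff.1 hK0 with h | h
      · omega
      · exact h
    have h3 : T.card ≤ 17 * C * D.weight T' * L ^ 8 := by
      calc T.card ≤ C * L ^ 8 := h1.le
        _ = C * 1 * L ^ 8 := by ring
        _ ≤ 17 * C * D.weight T' * L ^ 8 := by
            apply Nat.mul_le_mul_right
            exact Nat.mul_le_mul (Nat.le_mul_of_pos_left _ (by norm_num)) (one_le_weight D T')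
    have h4 : (D.accP (fun i => lift r (P i)) - D.accP fun i => lift r (Q i)) * (T.card : ℝ) ≤
        1 * T.card := by
      apply mul_le_mul_of_nonneg_right _ (Nat.cast_nonneg _)
      have := D.accP_le_one fun i => lift r (P i)
      have := D.accP_nonneg fun i => lift r (Q i)
      linarith
    rw [one_mul] at h4
    refine h4.trans ?_
    have h5 : ((L : ℕ) : ℝ) = (Nat.log 2 (nn * S) : ℝ) + 1 := by rw [hL]; push_cast; rfl
    rw [← h5]
    exact_mod_cast h3
  have : Fact q.Prime := ⟨hqp⟩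
  have hq0 : 0 < q := hqp.pos
  have ha0 : 0 < a := by
    rcases Nat.eq_zero_or_pos a with h | h
    · subst h; omega
    · exact h
  have : NeZero a := ⟨by omega⟩
  set φ : ZMod q → Fin a := hsh q Bd a hqa with hφ
  have hB : ∀ α, (univ.filter fun z : ZMod q => φ z = α).card ≤ Bd := hsh_fiber q Bd a hqa hBd
  have hcF : Fintype.card (ZMod q) = q := ZMod.card q
  have hcI : Fintype.card (ZMod q × Fin a) = q * a := by
    rw [Fintype.card_prod, hcF, Fintype.card_fin]
  -- sizes
  have hnsL : nn * S < 2 ^ L := Nat.lt_pow_succ_log_self (by norm_num) _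
  have hnnL : nn < 2 ^ L := lt_of_le_of_lt (Nat.le_mul_of_pos_right _ hS0) hnsL
  have hnL : n < 2 ^ L := hnn.trans_lt hnnL
  have hnn0 : 0 < nn := by omega
  have hsL : ∀ s ≤ S, s ≤ 2 ^ d := by
    intro s hs
    calc s ≤ nn * s := Nat.le_mul_of_pos_left _ hnn0
      _ ≤ nn * S := Nat.mul_le_mul_left _ hs
      _ ≤ 2 ^ L := hnsL.le
      _ ≤ 2 ^ (2 * L) := Nat.pow_le_pow_right (by norm_num) (by omega)
      _ ≤ 2 ^ d := hbig
  have hTs : ∀ s ≤ S, T.card * s ≤ 2 ^ d := by
    intro s hs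
    calc T.card * s ≤ (n * n) * s := Nat.mul_le_mul_right _ (card_edgeVar_le n T)
      _ ≤ (n * nn) * s := Nat.mul_le_mul_right _ (Nat.mul_le_mul_left _ hnn)
      _ = n * (nn * s) := by ring
      _ ≤ 2 ^ L * 2 ^ L := Nat.mul_le_mul hnL.le ((Nat.mul_le_mul_left _ hs).trans hnsL.le)
      _ = 2 ^ (2 * L) := by rw [← pow_add]; congr 1; ring
      _ ≤ 2 ^ d := hbig
  have hsq : 2 * q + q * d ≤ Nat.sqrt n := by
    rw [Nat.le_sqrt']
    exact hs2.trans hCL
  have hsq9 : 9 ≤ Nat.sqrt n := by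
    rw [Nat.le_sqrt']
    omega
  have hsq2 : 8 * (Nat.sqrt n + 1) ≤ n := by
    have h1 : Nat.sqrt n * Nat.sqrt n ≤ n := Nat.sqrt_le n
    calc 8 * (Nat.sqrt n + 1) ≤ 9 * Nat.sqrt n := by omega
      _ ≤ Nat.sqrt n * Nat.sqrt n := Nat.mul_le_mul_right _ hsq9
      _ ≤ n := h1
  have hs3' : 8 * (q ^ 3 * d) ≤ n := hs3.trans hCL
  set e := q ^ 3 * d + (Nat.sqrt n + 1) with he
  have he4 : 4 * e ≤ n := by omega
  have hqa1 : 1 ≤ q * a := Nat.mul_pos hq0 ha0
  have haux : ∀ p, p ≤ Nat.sqrt n + 1 →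
      Nonempty (((ZMod q × Fin d × ZMod q × ZMod q) ⊕ Fin p) ↪ Fin e) := by
    intro p hp
    apply Function.Embedding.nonempty_of_card_le
    simp only [Fintype.card_sum, Fintype.card_prod, Fintype.card_fin, hcF]
    have h1 : q * (d * (q * q)) = q ^ 3 * d := by ring
    omega
  have hbound : 32 * L * (L + 1) * (q * a) * K + 16 * L * (q * a) ^ 2 * K ≤ T.card := by
    calc 32 * L * (L + 1) * (q * a) * K + 16 * L * (q * a) ^ 2 * K
        = (32 * L * (L + 1) * (q * a) + 16 * L * (q * a) ^ 2) * K := by ring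
      _ ≤ (C * L ^ 8) * K := Nat.mul_le_mul_right _ hs1
      _ ≤ T.card := by rw [hK]; exact Nat.mul_div_le _ _
  -- the families
  have hfam : ∃ (G0 : SimpleGraph (Fin n)) (N : ℕ) (P Q : Fin N → SimpleGraph (Fin n)), 0 < N ∧
      (∀ i, HasClique (P i)) ∧ (∀ i, ¬ HasClique (Q i)) ∧
      (∀ i, Between T G0 (P i)) ∧ (∀ i, Between T G0 (Q i)) ∧
      ∀ (V : Type) [Fintype V] (s : ℕ) (D : Circuit V s) (r : V → EdgeVar n ⊕ Prop)
        (T' : Finset V), (∀ v, v ∉ T' → ∀ e ∈ T, r v ≠ Sum.inl e) → s ≤ 2 ^ d →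
      (D.accP (fun i => lift r (P i)) - D.accP fun i => lift r (Q i)) * (K * 2 ^ d) ≤
        8 * D.weight T' * 2 ^ d + K * s := by
    rcases CliqueCircuits.exists_packing' T (ZMod q × Fin a) (q * a) e L K hcI hqa1 he4 hnL hL1 hK1
      hbound with hstar | hmatch
    · obtain ⟨U, X, Q, v, lab, w, hU, hv, hUv, hlU, hlv, hlw, hHR, hXQ⟩ := hstar
      set p := Nat.sqrt n + 1 - (q + 1 + q * d) with hp
      obtain ⟨ua⟩ := haux p (by omega)
      have hcardS : Fintype.card (GS (ZMod q) Unit d p) = Nat.sqrt n + 1 := by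
        simp only [Fintype.card_sum, Fintype.card_prod, Fintype.card_fin, hcF, Fintype.card_unit]
        omega
      set ε := starMap U ua v w with hε
      have hpack : IsPack ε (fun ρ : Fin X × Fin Q => ρ.2) := by
        refine ⟨?_, ?_, ?_, ?_⟩
        · rintro ⟨i, y⟩ ⟨i', y'⟩ ((ι | u) | z) ((ι' | u') | z') h
          · have h1 := congrArg lab h
            simp only [hε, starMap, hlw, Option.some.injEq, Prod.mk.injEq] at h1
            rw [h1.2]
          · have h1 := congrArg lab h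
            simp only [hε, starMap, hlw, hlv] at h1
            exact absurd h1 (by simp)
          · have h1 := congrArg lab h
            simp only [hε, starMap, hlw, hlU] at h1
            exact absurd h1 (by simp)
          · have h1 := congrArg lab h
            simp only [hε, starMap, hlw, hlv] at h1
            exact absurd h1.symm (by simp)
          · rfl
          · exact absurd h.symm (hUv _ _)
          · have h1 := congrArg lab h
            simp only [hε, starMap, hlw, hlU] at h1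
            exact absurd h1.symm (by simp)
          · exact absurd h (hUv _ _)
          · have h1 := ua.injective (hU h)
            rw [h1]
        · intro ρ ρ' z
          rfl
        · rintro ⟨i, y⟩ ⟨i', y'⟩ ι h
          have h1 := congrArg lab h
          simp only [hε, starMap, hlw, Option.some.injEq, Prod.mk.injEq] at h1
          exact h1.1
        · rintro ⟨i, y⟩ ⟨i', y'⟩ u h h'
          have h1 : i = i' := hv h
          exact Prod.ext h1 h'
      obtain ⟨g⟩ : Nonempty (Fin K ↪ Fin X × Fin Q) := by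
        apply Function.Embedding.nonempty_of_card_le
        rw [Fintype.card_prod, Fintype.card_fin, Fintype.card_fin, Fintype.card_fin]
        exact hXQ
      exact families_proj φ (fun _ : Unit => ()) (fun _ => ()) (fun ρ => ε (g ρ)) hK1
        (hpack.comp g g.injective) hd
        (Or.inl fun _ _ => rfl) (fun h => ⟨fun _ => (), fun _ => rfl, fun _ => rfl⟩) hcardS T
        (by
          rintro h ρ ι hg
          refine CliqueCircuits.HR.mem (hHR (g ρ).1 (g ρ).2 ι) h ?_
          rcases hg with ⟨h1, h3⟩ | ⟨h1, h3⟩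
          · exact Or.inr ⟨h1, h3⟩
          · exact Or.inl ⟨h1, h3⟩)
        Bd hB (by rw [hcF]; exact h2) (by rw [hcF]; exact hdq) (by rw [hcF]; exact hneg)
    · obtain ⟨U, z, w, hU, hz, hw, hzw, hUz, hUw, hHR⟩ := hmatch
      set p := Nat.sqrt n + 1 - (q + q + q * d) with hp
      obtain ⟨ua⟩ := haux p (by omega)
      have hcardS : Fintype.card (GS (ZMod q) (ZMod q) d p) = Nat.sqrt n + 1 := by
        simp only [Fintype.card_sum, Fintype.card_prod, Fintype.card_fin, hcF]
        omega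
      have ix : Fin K × (ZMod q × Fin a) ≃ Fin (K * (q * a)) :=
        Fintype.equivOfCardEq (by
          rw [Fintype.card_prod, hcI, Fintype.card_fin, Fintype.card_fin])
      set ε := matchMap (d := d) U ua ix z w with hε
      have hpack : IsPack ε (id : Fin K → Fin K) := by
        refine ⟨?_, ?_, ?_, ?_⟩
        · rintro ρ ρ' ((ι | u) | c) ((ι' | u') | c') h
          · have h1 := ix.injective (hw h)
            rw [(Prod.mk.inj h1).2]
          · exact absurd h.symm (hzw _ _)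
          · exact absurd h.symm (hUw _ _)
          · exact absurd h (hzw _ _)
          · have h1 := ix.injective (hz h)
            rw [(Prod.mk.inj h1).2]
          · exact absurd h.symm (hUz _ _)
          · exact absurd h (hUw _ _)
          · exact absurd h (hUz _ _)
          · have h1 := ua.injective (hU h)
            rw [h1]
        · intro ρ ρ' c
          rfl
        · intro ρ ρ' ι h
          have h1 := ix.injective (hw h)
          exact (Prod.mk.inj h1).1
        · intro ρ ρ' u _ h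
          exact h
      exact families_proj φ (Prod.fst : ZMod q × Fin a → ZMod q) id ε hK1 hpack hd
        (Or.inr Function.injective_id) (fun h => ⟨fun i => (i, h i), fun _ => rfl, fun _ => rfl⟩)
        hcardS T
        (by
          rintro g ρ ι hg
          refine CliqueCircuits.HR.mem (hHR (ix (ρ, ι))) g ?_
          rcases hg with ⟨h1, h3⟩ | ⟨h1, h3⟩
          · exact Or.inr ⟨h1, h3⟩
          · exact Or.inl ⟨h1, h3⟩)
        Bd hB (by rw [hcF]; exact h2) (by rw [hcF]; exact hdq) (by rw [hcF]; exact hneg)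
  obtain ⟨G0, N, P, Q, hN, hP, hQ, hP', hQ', hadv⟩ := hfam
  refine ⟨G0, N, P, Q, hN, hP, hQ, hP', hQ', ?_⟩
  intro V _ s D r T' hT' hs
  have h1 := hadv V s D r T' hT' (hsL s hs)
  set γ := D.accP (fun i => lift r (P i)) - D.accP fun i => lift r (Q i) with hγ
  have hγ1 : γ ≤ 1 := by
    have := D.accP_le_one fun i => lift r (P i)
    have := D.accP_nonneg fun i => lift r (Q i)
    linarith
  have hTK : T.card ≤ 2 * K * (C * L ^ 8) := by
    have h3 : T.card < (K + 1) * (C * L ^ 8) := by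
      rw [hK]
      have := Nat.lt_div_mul_add (a := T.card) (b := C * L ^ 8) (by omega)
      calc T.card < T.card / (C * L ^ 8) * (C * L ^ 8) + C * L ^ 8 := this
        _ = _ := by ring
    refine h3.le.trans (Nat.mul_le_mul_right _ (by omega))
  have hTs' : (T.card : ℝ) * s ≤ 2 ^ d := by exact_mod_cast hTs s hs
  have hTKR : (T.card : ℝ) ≤ 2 * K * (C * L ^ 8) := by exact_mod_cast hTK
  have hKR : (1 : ℝ) ≤ K := by exact_mod_cast hK1
  have hwR : (1 : ℝ) ≤ D.weight T' := by exact_mod_cast one_le_weight D T'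
  have hCLR : (1 : ℝ) ≤ C * L ^ 8 := by exact_mod_cast hCL1
  have h2d : (0 : ℝ) < 2 ^ d := pow_pos (by norm_num) d
  have hT0 : (0 : ℝ) ≤ T.card := Nat.cast_nonneg _
  -- multiply by T.card and divide by K * 2 ^ d
  have hK0R : (0 : ℝ) < K * 2 ^ d := mul_pos (by linarith) h2d
  have h3 : γ * T.card * (K * 2 ^ d) ≤ (17 * (C * L ^ 8) * D.weight T') * (K * 2 ^ d) := by
    calc γ * T.card * (K * 2 ^ d) = (γ * (K * 2 ^ d)) * T.card := by ring
      _ ≤ (8 * D.weight T' * 2 ^ d + K * s) * T.card := mul_le_mul_of_nonneg_right h1 hT0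
      _ = 8 * D.weight T' * 2 ^ d * T.card + K * (T.card * s) := by ring
      _ ≤ 8 * D.weight T' * 2 ^ d * (2 * K * (C * L ^ 8)) + K * 2 ^ d := by
          apply add_le_add
          · exact mul_le_mul_of_nonneg_left hTKR (mul_nonneg (by linarith) h2d.le)
          · exact mul_le_mul_of_nonneg_left hTs' (by linarith)
      _ = (16 * (C * L ^ 8) * D.weight T') * (K * 2 ^ d) + 1 * (K * 2 ^ d) := by ring
      _ ≤ (16 * (C * L ^ 8) * D.weight T') * (K * 2 ^ d) +
          ((C * L ^ 8) * D.weight T') * (K * 2 ^ d) := by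
          apply add_le_add_right
          apply mul_le_mul_of_nonneg_right _ hK0R.le
          calc (1 : ℝ) = 1 * 1 := by norm_num
            _ ≤ (C * L ^ 8) * D.weight T' := mul_le_mul hCLR hwR (by norm_num) (by linarith)
      _ = _ := by ring
  have h4 := le_of_mul_le_mul_right h3 hK0R
  have hLc : ((L : ℕ) : ℝ) = (Nat.log 2 (nn * S) : ℝ) + 1 := by rw [hL]; push_cast; rfl
  rw [← hLc]
  calc γ * T.card ≤ 17 * (C * L ^ 8) * D.weight T' := h4
    _ = ((17 * C : ℕ) : ℝ) * D.weight T' * L ^ 8 := by push_cast; ring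

end Pool.Agent.CliqueModules
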