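import Mathlib
import Pool.Agent.Lib.MP_0a1b52_lc_BAND.Families

/-!
Every set `T` of variables carries a hard subcube: the families of `main2` can be chosen such that
all their members agree outside `T`.
-/

namespace Pool.Agent.CliqueModules

open Finset

/-- `G` and `G'` have the same edges outside `T`. -/
def AgreeOutside {n : ℕ} (T : Finset (EdgeVar n)) (G G' : SimpleGraph (Fin n)) : Prop :=
  ∀ e : EdgeVar n, e ∉ T → (G.Adj e.1.1 e.1.2 ↔ G'.Adj e.1.1 e.1.2)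

theorem main_subcube : ∃ C : ℕ, ∀ n S : ℕ, C * (Nat.log 2 (n * S) + 1) ^ 8 ≤ n →
    ∀ T : Finset (EdgeVar n), T.Nonempty →
    ∃ (H : SimpleGraph (Fin n)) (N : ℕ) (P Q : Fin N → SimpleGraph (Fin n)),
      0 < N ∧ (∀ i, HasClique (P i)) ∧ (∀ i, ¬ HasClique (Q i)) ∧
      (∀ i, AgreeOutside T (P i) H) ∧ (∀ i, AgreeOutside T (Q i) H) ∧
      ∀ s ≤ S, ∀ D : Circuit (EdgeVar n) s,
        (D.acceptProb P - D.acceptProb Q) * T.card ≤
          C * D.weight T * (Nat.log 2 (n * S) + 1) ^ 8 := by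
  obtain ⟨C, hC⟩ := main3
  refine ⟨C, fun n S hn T hT => ?_⟩
  obtain ⟨H, N, P, Q, hN, hP, hQ, hP', hQ', h⟩ := hC n n S le_rfl hn T (card_pos.2 hT)
  refine ⟨H, N, P, Q, hN, hP, hQ, fun i e he => ⟨(hP' i).2 e he, (hP' i).1 e⟩,
    fun i e he => ⟨(hQ' i).2 e he, (hQ' i).1 e⟩, fun s hs D => ?_⟩
  exact h (EdgeVar n) s D Sum.inl T (fun v hv e he hve => hv (Sum.inl.inj hve ▸ he)) hs

end Pool.Agent.CliqueModules
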